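import Mathlib
import Pool.Agent.P8H75.LN2

/-!
# Lipschitz spaces of nets in Banach spaces and their `ℓ_∞`-sums (MP_1d1573_an)

Q1, full positive answer: for every real normed space `X` (in particular every separable Banach
space), every net `N` in `X` and every base point `o ∈ N`, the space `Lip_0(N)` is linearly
isomorphic to the space of bounded sequences in `Lip_0(N)`.

The definitions `Lip0` (with its norm `sup |f x - f y| / d(x, y)`) and `IsNet` are in
`Pool.Agent.P8H75.LN1`.

Outline: `Lip_0(N)` is the dual of the Lipschitz free space `F(N)`, the dual of an `ℓ_1`-sum is the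
`ℓ_∞`-sum of the duals, and `F(N)` is isomorphic to `ℓ_1(F(N))` by the theorem
`Pool.Agent.Results.MP_777e28_an.NetIso.result` of this repository (case `p = 1`).
-/

set_option autoImplicit false

open scoped ENNReal

namespace Pool.Agent.Results.MP_1d1573_an.NetLinftySum

open Pool.Agent.P8H75.LN

universe u

/-- **Answer to Q1 (yes).**  For every real normed space `X`, every net `N` in `X` and every base
point `o` of `N`, the space `Lip_0(N)` is linearly isomorphic to `(⊕ Lip_0(N))_{ℓ_∞}`. -/
theorem result (X : Type u) [NormedAddCommGroup X] [NormedSpace ℝ X] (N : Set X) (hN : IsNet N)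
    (o : N) : Nonempty (Lip0 N o ≃L[ℝ] lp (fun _ : ℕ => Lip0 N o) ∞) := by
  obtain ⟨ε, δ, hε, hδ, h1, h2⟩ := hN
  refine net_li X N ⟨min ε δ, δ, lt_min hε hδ, min_le_right _ _, fun x hx y hy hxy => ?_,
    fun v => ?_⟩ o
  · rw [← dist_eq_norm]
    exact (min_le_left _ _).trans (h1 x hx y hy hxy)
  · obtain ⟨y, hy, hvy⟩ := h2 v
    refine ⟨y, hy, ?_⟩
    rw [← dist_eq_norm]
    exact hvy.le

end Pool.Agent.Results.MP_1d1573_an.NetLinftySum
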